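import Mathlib

/-!
# Weighted Eden growth: the deterministic growth metric `D` and its unit ball
-/

namespace Q292.Eden

open MeasureTheory Set Topology
open scoped ENNReal NNReal

/-- `ℝ^d` with the Euclidean norm. -/
abbrev E (d : ℕ) := EuclideanSpace ℝ (Fin d)

/-- `f` is an `α`-weight function: `f z = |z|^α f₀ (z / |z|)` with `f₀` strictly positive and
Lipschitz on the Euclidean unit sphere. (The value at `z = 0` plays no role.) -/
def IsWeight {d : ℕ} (α : ℝ) (f : E d → ℝ) : Prop :=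
  ∃ f0 : E d → ℝ, (∀ x ∈ Metric.sphere (0 : E d) 1, 0 < f0 x) ∧
    (∃ C : ℝ≥0, LipschitzOnWith C f0 (Metric.sphere (0 : E d) 1)) ∧
    ∀ z, f z = ‖z‖ ^ α * f0 (‖z‖⁻¹ • z)

/-- `γ` restricted to `[0, T]` is a piecewise linear path from `z` to `w` parametrised by
`μ`-length: there is a finite set `S` of breakpoints such that on each interval `[s, t]` without
breakpoints in its interior, `γ` is affine with a velocity `v` with `μ v = 1`. -/
structure IsPath {d : ℕ} (μ : Seminorm ℝ (E d)) (γ : ℝ → E d) (T : ℝ) (z w : E d) : Prop where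
  nonneg : 0 ≤ T
  start : γ 0 = z
  finish : γ T = w
  piecewise : ∃ S : Finset ℝ, ∀ s t, 0 ≤ s → s < t → t ≤ T → (∀ r ∈ S, r ∉ Ioo s t) →
    ∃ v : E d, μ v = 1 ∧ ∀ x ∈ Icc s t, γ x = γ s + (x - s) • v

/-- `D(z, w)`, the infimum of `∫_0^T dt / f(γ(t))` over the piecewise linear paths from `z` to `w`
parametrised by `μ`-length. -/
noncomputable def D {d : ℕ} (μ : Seminorm ℝ (E d)) (f : E d → ℝ) (z w : E d) : ℝ≥0∞ :=
  ⨅ (γ : ℝ → E d) (T : ℝ) (_ : IsPath μ γ T z w), ∫⁻ t in Icc 0 T, ENNReal.ofReal (1 / f (γ t))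

/-- The set `𝔹 = {z : D(0, z) ≤ 1}`. -/
def growthBall {d : ℕ} (μ : Seminorm ℝ (E d)) (f : E d → ℝ) : Set (E d) := {z | D μ f 0 z ≤ 1}

/-- `K` has Lipschitz boundary: near each boundary point, in suitable orthonormal coordinates
(with last axis `e`), `K` is the region on one side of the graph of a Lipschitz function. -/
def HasLipschitzBoundary {d : ℕ} (K : Set (E d)) : Prop :=
  ∀ p ∈ frontier K, ∃ (e : E d) (g : E d → ℝ) (C : ℝ≥0) (r : ℝ), ‖e‖ = 1 ∧ 0 < r ∧
    LipschitzWith C g ∧ ∀ x, dist x p < r →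
      (x ∈ K ↔ inner ℝ e x ≤ g (x - (inner ℝ e x : ℝ) • e))

/-- The sets `K` of the question. -/
structure Admissible {d : ℕ} (K : Set (E d)) : Prop where
  compact : IsCompact K
  lipschitz : HasLipschitzBoundary K
  nhds_zero : K ∈ 𝓝 (0 : E d)
  ray : ∀ v : E d, v ≠ 0 → ∃! t : ℝ, 0 ≤ t ∧ t • v ∈ frontier K

/-- The weights of the rhombus: `1` in the first coordinate direction, `L` in the others. -/
noncomputable def wgt {d : ℕ} (L : ℝ) (i : Fin d) : ℝ := if (i : ℕ) = 0 then 1 else L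

/-- The set `{x : |x₁| + L (|x₂| + ⋯ + |x_d|) ≤ 1}`. -/
def rhombus (d : ℕ) (L : ℝ) : Set (E d) := {x | ∑ i, wgt L i * |x i| ≤ 1}

end Q292.Eden
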