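import Mathlib
import Pool.Agent.Q292.Eden.Defs

/-!
# Basic properties of the metric `D`
-/

namespace Q292.Eden

open MeasureTheory Set Topology Filter
open scoped ENNReal NNReal

variable {d : ℕ}

theorem mu_le (μ : Seminorm ℝ (E d)) (x : E d) :
    μ x ≤ (∑ i, μ (EuclideanSpace.single i 1)) * ‖x‖ := by
  have h1 : ∑ i, x i • (EuclideanSpace.single i (1 : ℝ) : E d) = x := by
    have := (EuclideanSpace.basisFun (Fin d) ℝ).sum_repr x
    simpa [EuclideanSpace.basisFun_repr, EuclideanSpace.basisFun_apply] using this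
  calc μ x = μ (∑ i, x i • (EuclideanSpace.single i (1 : ℝ) : E d)) := by rw [h1]
    _ ≤ ∑ i, μ (x i • (EuclideanSpace.single i (1 : ℝ) : E d)) :=
        Finset.le_sum_of_subadditive μ (map_zero μ).le (fun a b => map_add_le_add μ a b) _ _
    _ ≤ ∑ i, μ (EuclideanSpace.single i 1) * ‖x‖ := by
        refine Finset.sum_le_sum fun i _ => ?_
        rw [map_smul_eq_mul, mul_comm]
        refine mul_le_mul_of_nonneg_left ?_ (apply_nonneg μ _)
        have := EuclideanSpace.norm_eq x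
        rw [Real.norm_eq_abs, this]
        apply Real.le_sqrt_of_sq_le
        have h1 : ‖x i‖ ^ 2 ≤ ∑ j, ‖x j‖ ^ 2 :=
          Finset.single_le_sum (f := fun j => ‖x j‖ ^ 2) (fun j _ => by positivity)
            (Finset.mem_univ i)
        simpa using h1
    _ = _ := by rw [Finset.sum_mul]

/-- the constant of `mu_le` -/
noncomputable def cmu (μ : Seminorm ℝ (E d)) : ℝ := ∑ i, μ (EuclideanSpace.single i 1)

theorem cmu_nonneg (μ : Seminorm ℝ (E d)) : 0 ≤ cmu μ :=
  Finset.sum_nonneg fun _ _ => apply_nonneg μ _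

theorem mu_cont (μ : Seminorm ℝ (E d)) : Continuous μ := by
  refine LipschitzWith.continuous (K := (cmu μ).toNNReal) (LipschitzWith.of_dist_le_mul ?_)
  intro x y
  rw [Real.coe_toNNReal _ (cmu_nonneg μ), Real.dist_eq, dist_eq_norm]
  exact (abs_sub_map_le_sub μ x y).trans (mu_le μ _)

theorem mu_lower (μ : Seminorm ℝ (E d)) (hμ : ∀ x, μ x = 0 → x = 0) :
    ∃ m : ℝ, 0 < m ∧ ∀ x, m * ‖x‖ ≤ μ x := by
  by_cases hne : (Metric.sphere (0 : E d) 1).Nonempty
  · obtain ⟨x0, hx0, hmin⟩ := (isCompact_sphere (0 : E d) 1).exists_isMinOn hne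
      (mu_cont μ).continuousOn
    have hx0n : ‖x0‖ = 1 := by simpa using hx0
    have hpos : 0 < μ x0 := lt_of_le_of_ne (apply_nonneg μ x0) fun h => by
      rw [hμ x0 h.symm, norm_zero] at hx0n
      exact zero_ne_one hx0n
    refine ⟨μ x0, hpos, fun x => ?_⟩
    by_cases hx : x = 0
    · rw [hx, norm_zero, mul_zero, map_zero]
    · have hxn : 0 < ‖x‖ := norm_pos_iff.2 hx
      have h1 : μ x0 ≤ μ (‖x‖⁻¹ • x) := hmin (by
        rw [mem_sphere_zero_iff_norm, norm_smul, norm_inv, norm_norm, inv_mul_cancel₀ hxn.ne'])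
      rw [map_smul_eq_mul, norm_inv, norm_norm] at h1
      calc μ x0 * ‖x‖ ≤ (‖x‖⁻¹ * μ x) * ‖x‖ := mul_le_mul_of_nonneg_right h1 hxn.le
        _ = μ x := by field_simp
  · refine ⟨1, one_pos, fun x => ?_⟩
    by_cases hx : x = 0
    · rw [hx, norm_zero, mul_zero, map_zero]
    · exfalso
      apply hne
      refine ⟨‖x‖⁻¹ • x, ?_⟩
      rw [mem_sphere_zero_iff_norm, norm_smul, norm_inv, norm_norm,
        inv_mul_cancel₀ (norm_pos_iff.2 hx).ne']

theorem IsPath.lip {μ : Seminorm ℝ (E d)} {γ : ℝ → E d} {T : ℝ} {z w : E d}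
    (h : IsPath μ γ T z w) : ∀ s t, 0 ≤ s → s ≤ t → t ≤ T → μ (γ t - γ s) ≤ t - s := by
  classical
  obtain ⟨S, hS⟩ := h.piecewise
  have key : ∀ n : ℕ, ∀ s t, 0 ≤ s → s ≤ t → t ≤ T →
      (S.filter (fun r => r ∈ Ioo s t)).card ≤ n → μ (γ t - γ s) ≤ t - s := by
    intro n
    induction n with
    | zero =>
      intro s t h0 hst hT hcard
      rcases hst.eq_or_lt with rfl | hlt
      · simp
      obtain ⟨v, hv, hx⟩ := hS s t h0 hlt hT (by
        intro r hr hmem
        have : r ∈ S.filter (fun r => r ∈ Ioo s t) := Finset.mem_filter.2 ⟨hr, hmem⟩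
        have h2 := Finset.card_pos.2 ⟨r, this⟩
        omega)
      rw [hx t ⟨hst, le_rfl⟩, add_sub_cancel_left, map_smul_eq_mul, hv, mul_one,
        Real.norm_of_nonneg (by linarith)]
    | succ n ih =>
      intro s t h0 hst hT hcard
      by_cases hne : (S.filter (fun r => r ∈ Ioo s t)).Nonempty
      · obtain ⟨r, hr⟩ := hne
        obtain ⟨hrS, hr1, hr2⟩ := Finset.mem_filter.1 hr
        have c1 : (S.filter (fun x => x ∈ Ioo s r)).card ≤ n := by
          have : (S.filter (fun x => x ∈ Ioo s r)) ⊆ (S.filter (fun x => x ∈ Ioo s t)).erase r := by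
            intro x hx
            obtain ⟨hxS, hx1, hx2⟩ := Finset.mem_filter.1 hx
            exact Finset.mem_erase.2 ⟨hx2.ne, Finset.mem_filter.2 ⟨hxS, hx1, hx2.trans hr2⟩⟩
          have := Finset.card_le_card this
          rw [Finset.card_erase_of_mem hr] at this
          omega
        have c2 : (S.filter (fun x => x ∈ Ioo r t)).card ≤ n := by
          have : (S.filter (fun x => x ∈ Ioo r t)) ⊆ (S.filter (fun x => x ∈ Ioo s t)).erase r := by
            intro x hx
            obtain ⟨hxS, hx1, hx2⟩ := Finset.mem_filter.1 hx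
            exact Finset.mem_erase.2 ⟨hx1.ne', Finset.mem_filter.2 ⟨hxS, hr1.trans hx1, hx2⟩⟩
          have := Finset.card_le_card this
          rw [Finset.card_erase_of_mem hr] at this
          omega
        have h1 := ih s r h0 hr1.le (hr2.le.trans hT) c1
        have h2 := ih r t (h0.trans hr1.le) hr2.le hT c2
        have h3 : γ t - γ s = (γ t - γ r) + (γ r - γ s) := by abel
        rw [h3]
        have := map_add_le_add μ (γ t - γ r) (γ r - γ s)
        linarith
      · rw [Finset.not_nonempty_iff_eq_empty] at hne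
        rcases hst.eq_or_lt with rfl | hlt
        · simp
        obtain ⟨v, hv, hx⟩ := hS s t h0 hlt hT (by
          intro r hr hmem
          have : r ∈ S.filter (fun r => r ∈ Ioo s t) := Finset.mem_filter.2 ⟨hr, hmem⟩
          rw [hne] at this
          simp at this)
        rw [hx t ⟨hst, le_rfl⟩, add_sub_cancel_left, map_smul_eq_mul, hv, mul_one,
          Real.norm_of_nonneg (by linarith)]
  intro s t h0 hst hT
  exact key _ s t h0 hst hT le_rfl

theorem IsPath.restrict {μ : Seminorm ℝ (E d)} {γ : ℝ → E d} {T : ℝ} {z w : E d}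
    (h : IsPath μ γ T z w) {t : ℝ} (h0 : 0 ≤ t) (hT : t ≤ T) : IsPath μ γ t z (γ t) := by
  obtain ⟨S, hS⟩ := h.piecewise
  exact ⟨h0, h.start, rfl, S, fun s r h1 h2 h3 h4 => hS s r h1 h2 (h3.trans hT) h4⟩

theorem D_le {μ : Seminorm ℝ (E d)} {f : E d → ℝ} {γ : ℝ → E d} {T : ℝ} {z w : E d}
    (h : IsPath μ γ T z w) : D μ f z w ≤ ∫⁻ t in Icc 0 T, ENNReal.ofReal (1 / f (γ t)) :=
  iInf_le_of_le γ (iInf_le_of_le T (iInf_le _ h))

theorem IsPath.concat {μ : Seminorm ℝ (E d)} {γ γ' : ℝ → E d} {T T' : ℝ} {z y w : E d}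
    (h : IsPath μ γ T z y) (h' : IsPath μ γ' T' y w) :
    IsPath μ (fun t => if t ≤ T then γ t else γ' (t - T)) (T + T') z w := by
  classical
  obtain ⟨S, hS⟩ := h.piecewise
  obtain ⟨S', hS'⟩ := h'.piecewise
  refine ⟨add_nonneg h.nonneg h'.nonneg, ?_, ?_, S ∪ S'.image (fun r => r + T) ∪ {T}, ?_⟩
  · simp only [h.nonneg, if_true, h.start]
  · by_cases h0 : T' = 0
    · subst h0
      simp only [add_zero, le_refl, if_true, h.finish]
      rw [← h'.start, h'.finish]
    · have : 0 < T' := lt_of_le_of_ne h'.nonneg (Ne.symm h0)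
      rw [if_neg (by linarith), add_sub_cancel_left, h'.finish]
  · intro s t h0 hst hT hr
    have hTn : T ∉ Ioo s t := hr T (by simp)
    by_cases htT : t ≤ T
    · obtain ⟨v, hv, hx⟩ := hS s t h0 hst htT fun r hrS => hr r (by simp [hrS])
      refine ⟨v, hv, fun x hx' => ?_⟩
      rw [if_pos (hx'.2.trans htT), if_pos (hst.le.trans htT)]
      exact hx x hx'
    · have hsT : T ≤ s := by
        by_contra hcon
        push Not at hcon htT
        exact hTn ⟨hcon, htT⟩
      obtain ⟨v, hv, hx⟩ := hS' (s - T) (t - T) (by linarith) (by linarith) (by linarith)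
        fun r hrS hmem => hr (r + T) (by
          simp only [Finset.union_assoc, Finset.mem_union, Finset.mem_image, Finset.mem_singleton]
          exact Or.inr (Or.inl ⟨r, hrS, rfl⟩)) ⟨by linarith [hmem.1], by linarith [hmem.2]⟩
      have hval : ∀ x, T ≤ x → (if x ≤ T then γ x else γ' (x - T)) = γ' (x - T) := by
        intro x hx
        split_ifs with h1
        · have : x = T := le_antisymm h1 hx
          rw [this, sub_self, h.finish, h'.start]
        · rfl
      refine ⟨v, hv, fun x hx' => ?_⟩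
      rw [hval x (hsT.trans hx'.1), hval s hsT, hx (x - T) ⟨by linarith [hx'.1], by linarith [hx'.2]⟩]
      congr 2
      ring

theorem lintegral_shift (G : ℝ → ℝ≥0∞) (T T' : ℝ) :
    ∫⁻ t in Icc T (T + T'), G (t - T) = ∫⁻ t in Icc 0 T', G t := by
  have h1 : Icc T (T + T') = (fun t => t - T) ⁻¹' Icc 0 T' := by
    ext t
    simp only [mem_Icc, mem_preimage]
    constructor <;> rintro ⟨h1, h2⟩ <;> constructor <;> linarith
  rw [h1]
  exact (measurePreserving_sub_right volume T).setLIntegral_comp_preimage_emb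
    (measurableEmbedding_subRight T) G _

theorem D_triangle (μ : Seminorm ℝ (E d)) (f : E d → ℝ) (z y w : E d) :
    D μ f z w ≤ D μ f z y + D μ f y w := by
  have : ∀ (γ : ℝ → E d) (T : ℝ) (_ : IsPath μ γ T z y) (γ' : ℝ → E d) (T' : ℝ)
      (_ : IsPath μ γ' T' y w), D μ f z w ≤ (∫⁻ t in Icc 0 T, ENNReal.ofReal (1 / f (γ t))) +
        ∫⁻ t in Icc 0 T', ENNReal.ofReal (1 / f (γ' t)) := by
    intro γ T h γ' T' h'
    refine (D_le (h.concat h')).trans ?_
    have hsub : Icc 0 (T + T') ⊆ Icc 0 T ∪ Icc T (T + T') := by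
      intro t ht
      rcases le_total t T with h1 | h1
      · exact Or.inl ⟨ht.1, h1⟩
      · exact Or.inr ⟨h1, ht.2⟩
    refine (lintegral_mono_set hsub).trans ((lintegral_union_le _ _ _).trans ?_)
    refine add_le_add (le_of_eq ?_) (le_of_eq ?_)
    · refine setLIntegral_congr_fun measurableSet_Icc fun t ht => ?_
      simp only [if_pos ht.2]
    · rw [← lintegral_shift (fun t => ENNReal.ofReal (1 / f (γ' t))) T T']
      refine setLIntegral_congr_fun measurableSet_Icc fun t ht => ?_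
      split_ifs with h1
      · have : t = T := le_antisymm h1 ht.1
        rw [this, sub_self, h.finish, h'.start]
      · rfl
  conv_rhs => rw [D, D]
  simp only [ENNReal.iInf_add, ENNReal.add_iInf]
  exact le_iInf fun γ' => le_iInf fun T' => le_iInf fun h' => le_iInf fun γ => le_iInf fun T =>
    le_iInf fun h => this γ T h γ' T' h'

/-- Straight segments. -/
theorem D_segment (μ : Seminorm ℝ (E d)) (hμ : ∀ x, μ x = 0 → x = 0) (f : E d → ℝ) (z w : E d)
    {C : ℝ} (hC0 : 0 ≤ C)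
    (hC : ∀ t ∈ Icc (0 : ℝ) 1, 1 / f (z + t • (w - z)) ≤ C) :
    D μ f z w ≤ ENNReal.ofReal (C * μ (w - z)) := by
  set T := μ (w - z) with hT
  have hT0 : 0 ≤ T := apply_nonneg μ _
  rcases hT0.eq_or_lt with h0 | h0
  · have hwz : w = z := sub_eq_zero.1 (hμ _ (by rw [← hT, ← h0]))
    have hpath : IsPath μ (fun _ => z) 0 z w :=
      ⟨le_rfl, rfl, hwz.symm, ∅, fun s t h1 h2 h3 _ => by linarith⟩
    refine (D_le hpath).trans ?_
    simp
  · have hpath : IsPath μ (fun t => z + t • (T⁻¹ • (w - z))) T z w := by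
      refine ⟨hT0, by simp, ?_, ∅, fun s t _ _ _ _ => ⟨T⁻¹ • (w - z), ?_, fun x _ => ?_⟩⟩
      · simp only [smul_smul, mul_inv_cancel₀ h0.ne', one_smul]
        abel
      · rw [map_smul_eq_mul, ← hT, norm_inv, Real.norm_of_nonneg hT0, inv_mul_cancel₀ h0.ne']
      · rw [add_assoc, ← add_smul]
        congr 2
        ring
    refine (D_le hpath).trans ?_
    calc ∫⁻ t in Icc 0 T, ENNReal.ofReal (1 / f (z + t • (T⁻¹ • (w - z))))
        ≤ ∫⁻ _ in Icc 0 T, ENNReal.ofReal C := by
          refine setLIntegral_mono' measurableSet_Icc fun t ht => ENNReal.ofReal_le_ofReal ?_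
          rw [smul_smul]
          refine hC _ ⟨mul_nonneg ht.1 (inv_nonneg.2 hT0), ?_⟩
          rw [← div_eq_mul_inv, div_le_one h0]
          exact ht.2
      _ = ENNReal.ofReal (C * T) := by
          rw [setLIntegral_const, Real.volume_Icc, sub_zero, ← ENNReal.ofReal_mul hC0]

theorem IsPath.scale {μ : Seminorm ℝ (E d)} {γ : ℝ → E d} {T : ℝ} {z w : E d}
    (h : IsPath μ γ T z w) {r : ℝ} (hr : 0 < r) :
    IsPath μ (fun t => r • γ (r⁻¹ * t)) (r * T) (r • z) (r • w) := by
  classical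
  obtain ⟨S, hS⟩ := h.piecewise
  refine ⟨mul_nonneg hr.le h.nonneg, by simp [h.start], ?_, S.image (fun s => r * s), ?_⟩
  · rw [← mul_assoc, inv_mul_cancel₀ hr.ne', one_mul, h.finish]
  · intro s t h0 hst hT hrS
    have hri : 0 < r⁻¹ := inv_pos.2 hr
    obtain ⟨v, hv, hx⟩ := hS (r⁻¹ * s) (r⁻¹ * t) (by positivity)
      (mul_lt_mul_of_pos_left hst hri) (by
        rw [inv_mul_le_iff₀ hr]
        exact hT) (by
        intro x hxS hmem
        refine hrS (r * x) (Finset.mem_image_of_mem _ hxS) ⟨?_, ?_⟩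
        · have := mul_lt_mul_of_pos_left hmem.1 hr
          rwa [← mul_assoc, mul_inv_cancel₀ hr.ne', one_mul] at this
        · have := mul_lt_mul_of_pos_left hmem.2 hr
          rwa [← mul_assoc, mul_inv_cancel₀ hr.ne', one_mul] at this)
    refine ⟨v, hv, fun x hx' => ?_⟩
    rw [hx (r⁻¹ * x) ⟨mul_le_mul_of_nonneg_left hx'.1 hri.le,
      mul_le_mul_of_nonneg_left hx'.2 hri.le⟩, smul_add, smul_smul]
    congr 2
    field_simp

theorem lintegral_scale (G : ℝ → ℝ≥0∞) {r : ℝ} (hr : 0 < r) (T : ℝ) :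
    ∫⁻ t in Icc 0 (r * T), G (r⁻¹ * t) = ENNReal.ofReal r * ∫⁻ t in Icc 0 T, G t := by
  have hri : r⁻¹ ≠ 0 := (inv_pos.2 hr).ne'
  have he : MeasurableEmbedding (fun t : ℝ => r⁻¹ * t) :=
    (Homeomorph.mulLeft₀ r⁻¹ hri).measurableEmbedding
  have h1 : Icc 0 (r * T) = (fun t => r⁻¹ * t) ⁻¹' Icc 0 T := by
    ext t
    simp only [mem_Icc, mem_preimage]
    rw [inv_mul_le_iff₀ hr]
    constructor
    · rintro ⟨h1, h2⟩
      exact ⟨by have := inv_pos.2 hr; positivity, h2⟩
    · rintro ⟨h1, h2⟩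
      refine ⟨?_, h2⟩
      have := mul_nonneg hr.le h1
      rwa [← mul_assoc, mul_inv_cancel₀ hr.ne', one_mul] at this
  have h2 : Measure.map (fun t : ℝ => r⁻¹ * t) volume = ENNReal.ofReal r • volume := by
    have := Real.map_volume_mul_left hri
    rw [inv_inv, abs_of_pos hr] at this
    exact this
  have h3 : MeasurePreserving (fun t : ℝ => r⁻¹ * t) volume (ENNReal.ofReal r • volume) :=
    ⟨measurable_const_mul _, h2⟩
  rw [h1, h3.setLIntegral_comp_preimage_emb he, Measure.restrict_smul, lintegral_smul_measure,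
    smul_eq_mul]

theorem IsWeight.smul {α : ℝ} {f : E d → ℝ} (h : IsWeight α f) {r : ℝ} (hr : 0 < r) (z : E d) :
    f (r • z) = r ^ α * f z := by
  obtain ⟨f0, -, -, hf⟩ := h
  rw [hf, hf, norm_smul, Real.norm_of_nonneg hr.le, Real.mul_rpow hr.le (norm_nonneg _), mul_assoc,
    mul_inv, smul_smul]
  congr 4
  field_simp

theorem D_scale_le {μ : Seminorm ℝ (E d)} {α : ℝ} {f : E d → ℝ} (h : IsWeight α f) {r : ℝ}
    (hr : 0 < r) (z w : E d) :
    D μ f (r • z) (r • w) ≤ ENNReal.ofReal (r ^ (1 - α)) * D μ f z w := by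
  have key : ∀ (γ : ℝ → E d) (T : ℝ) (_ : IsPath μ γ T z w), D μ f (r • z) (r • w) ≤
      ENNReal.ofReal (r ^ (1 - α)) * ∫⁻ t in Icc 0 T, ENNReal.ofReal (1 / f (γ t)) := by
    intro γ T hp
    refine (D_le (hp.scale hr)).trans (le_of_eq ?_)
    have h1 : ∀ x : E d, ENNReal.ofReal (1 / f (r • x)) =
        ENNReal.ofReal (r ^ (-α)) * ENNReal.ofReal (1 / f x) := by
      intro x
      rw [h.smul hr, ← ENNReal.ofReal_mul (by positivity), one_div, mul_inv, ← Real.rpow_neg hr.le,
        one_div]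
    simp_rw [h1]
    rw [lintegral_const_mul' _ _ ENNReal.ofReal_ne_top,
      lintegral_scale (fun t => ENNReal.ofReal (1 / f (γ t))) hr, ← mul_assoc,
      ← ENNReal.ofReal_mul (by positivity)]
    congr 2
    rw [sub_eq_neg_add, Real.rpow_add hr, Real.rpow_one]
  have hne : ENNReal.ofReal (r ^ (1 - α)) ≠ 0 := (ENNReal.ofReal_pos.2 (by positivity)).ne'
  conv_rhs => rw [D]
  simp only [ENNReal.mul_iInf_of_ne hne ENNReal.ofReal_ne_top]
  exact le_iInf fun γ => le_iInf fun T => le_iInf fun hp => key γ T hp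

theorem D_scale {μ : Seminorm ℝ (E d)} {α : ℝ} {f : E d → ℝ} (h : IsWeight α f) {r : ℝ}
    (hr : 0 < r) (w : E d) :
    D μ f 0 (r • w) = ENNReal.ofReal (r ^ (1 - α)) * D μ f 0 w := by
  have h1 := D_scale_le (μ := μ) h hr 0 w
  rw [smul_zero] at h1
  refine le_antisymm h1 ?_
  have h2 := D_scale_le (μ := μ) h (inv_pos.2 hr) 0 (r • w)
  rw [smul_zero, smul_smul, inv_mul_cancel₀ hr.ne', one_smul] at h2
  calc ENNReal.ofReal (r ^ (1 - α)) * D μ f 0 w
      ≤ ENNReal.ofReal (r ^ (1 - α)) * (ENNReal.ofReal (r⁻¹ ^ (1 - α)) * D μ f 0 (r • w)) := by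
        gcongr
    _ = D μ f 0 (r • w) := by
        rw [← mul_assoc, ← ENNReal.ofReal_mul (by positivity), ← Real.mul_rpow hr.le
          (inv_pos.2 hr).le, mul_inv_cancel₀ hr.ne', Real.one_rpow, ENNReal.ofReal_one, one_mul]

end Q292.Eden
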