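import Mathlib
import Pool.Agent.Q292.Eden.Defs

/-!
# The rhombus is admissible
-/

namespace Q292.Eden

open MeasureTheory Set Topology Filter
open scoped ENNReal NNReal

variable {d : ℕ}

/-- gauge of the rhombus -/
noncomputable def N (L : ℝ) (x : E d) : ℝ := ∑ i, wgt L i * |x i|

theorem wgt_pos {L : ℝ} (hL : 0 < L) (i : Fin d) : 0 < wgt L i := by
  unfold wgt; split_ifs
  · exact one_pos
  · exact hL

theorem abs_coord_le (x : E d) (i : Fin d) : |x i| ≤ ‖x‖ := by
  have := EuclideanSpace.norm_eq x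
  rw [this]
  apply Real.le_sqrt_of_sq_le
  have h1 : ‖x i‖ ^ 2 ≤ ∑ j, ‖x j‖ ^ 2 :=
    Finset.single_le_sum (f := fun j => ‖x j‖ ^ 2) (fun j _ => by positivity) (Finset.mem_univ i)
  simpa using h1

theorem norm_le_sum (x : E d) : ‖x‖ ≤ ∑ i, |x i| := by
  rw [EuclideanSpace.norm_eq]
  apply Real.sqrt_le_iff.2
  refine ⟨Finset.sum_nonneg fun i _ => abs_nonneg _, ?_⟩
  have : ∑ i, ‖x i‖ ^ 2 = ∑ i, |x i| ^ 2 := by simp
  rw [this]
  exact Finset.sum_sq_le_sq_sum_of_nonneg (fun i _ => abs_nonneg _)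

theorem N_nonneg {L : ℝ} (hL : 0 < L) (x : E d) : 0 ≤ N L x :=
  Finset.sum_nonneg fun i _ => mul_nonneg (wgt_pos hL i).le (abs_nonneg _)

theorem N_smul (L : ℝ) (t : ℝ) (x : E d) : N L (t • x) = |t| * N L x := by
  rw [N, N, Finset.mul_sum]
  refine Finset.sum_congr rfl fun i _ => ?_
  rw [PiLp.smul_apply, smul_eq_mul, abs_mul]
  ring

theorem N_pos {L : ℝ} (hL : 0 < L) {x : E d} (hx : x ≠ 0) : 0 < N L x := by
  obtain ⟨i, hi⟩ : ∃ i, x i ≠ 0 := by
    by_contra h
    push Not at h
    apply hx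
    ext i
    simpa using h i
  exact Finset.sum_pos' (fun j _ => mul_nonneg (wgt_pos hL j).le (abs_nonneg _))
    ⟨i, Finset.mem_univ i, mul_pos (wgt_pos hL i) (abs_pos.2 hi)⟩

theorem N_add_le {L : ℝ} (hL : 0 < L) (x y : E d) : N L (x + y) ≤ N L x + N L y := by
  rw [N, N, N, ← Finset.sum_add_distrib]
  refine Finset.sum_le_sum fun i _ => ?_
  rw [PiLp.add_apply, ← mul_add]
  exact mul_le_mul_of_nonneg_left (abs_add_le _ _) (wgt_pos hL i).le

theorem N_le {L : ℝ} (hL : 0 < L) (x : E d) : N L x ≤ (∑ i : Fin d, wgt L i) * ‖x‖ := by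
  rw [N, Finset.sum_mul]
  exact Finset.sum_le_sum fun i _ => mul_le_mul_of_nonneg_left (abs_coord_le x i) (wgt_pos hL i).le

theorem N_lip {L : ℝ} (hL : 0 < L) :
    LipschitzWith (∑ i : Fin d, (wgt L i).toNNReal) (N L : E d → ℝ) := by
  refine LipschitzWith.of_dist_le_mul fun x y => ?_
  have h0 : ((∑ i : Fin d, (wgt L i).toNNReal : ℝ≥0) : ℝ) = ∑ i : Fin d, wgt L i := by
    push_cast
    exact Finset.sum_congr rfl fun i _ => Real.coe_toNNReal _ (wgt_pos hL i).le
  rw [h0, Real.dist_eq, dist_eq_norm, abs_sub_le_iff]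
  have h1 := N_add_le hL (x - y) y
  have h2 := N_add_le hL (y - x) x
  rw [sub_add_cancel] at h1 h2
  have h3 := N_le hL (x - y)
  have h4 := N_le hL (y - x)
  rw [norm_sub_rev y x] at h4
  constructor <;> linarith

theorem N_cont {L : ℝ} (hL : 0 < L) : Continuous (N L : E d → ℝ) := (N_lip hL).continuous

theorem mem_rhombus {L : ℝ} {x : E d} : x ∈ rhombus d L ↔ N L x ≤ 1 := Iff.rfl

theorem frontier_rhombus {L : ℝ} (hL : 0 < L) : frontier (rhombus d L) = {x | N L x = 1} := by
  apply Subset.antisymm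
  · exact frontier_le_subset_eq (N_cont hL) continuous_const
  · intro x hx
    have hx1 : N L x = 1 := hx
    refine ⟨subset_closure (mem_rhombus.2 hx1.le), fun hint => ?_⟩
    have h1 : Tendsto (fun t : ℝ => t • x) (𝓝 1) (𝓝 x) := by
      have : Tendsto (fun t : ℝ => t • x) (𝓝 1) (𝓝 ((1 : ℝ) • x)) :=
        (continuous_id.smul continuous_const).tendsto 1
      rwa [one_smul] at this
    have h2 := h1.eventually (mem_interior_iff_mem_nhds.1 hint)
    obtain ⟨ε, hε, h3⟩ := Metric.eventually_nhds_iff.1 h2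
    have h4 := h3 (y := 1 + ε / 2) (by
      rw [Real.dist_eq]
      rw [show 1 + ε / 2 - 1 = ε / 2 by ring, abs_of_pos (by positivity)]
      linarith)
    have h5 : N L ((1 + ε / 2) • x) ≤ 1 := h4
    rw [N_smul, hx1, abs_of_pos (by positivity)] at h5
    linarith

theorem admissible_rhombus {L : ℝ} (hL : 0 < L) : Admissible (rhombus d L) := by
  refine ⟨?_, ?_, ?_, ?_⟩
  · refine Metric.isCompact_of_isClosed_isBounded (isClosed_le (N_cont hL) continuous_const) ?_
    refine isBounded_iff_forall_norm_le.2 ⟨1 + L⁻¹, fun x hx => ?_⟩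
    refine (norm_le_sum x).trans ?_
    have h1 : ∀ i : Fin d, |x i| ≤ (1 + L⁻¹) * (wgt L i * |x i|) := by
      intro i
      have h2 : 1 ≤ (1 + L⁻¹) * wgt L i := by
        unfold wgt
        split_ifs
        · have := inv_pos.2 hL
          linarith
        · rw [add_mul, inv_mul_cancel₀ hL.ne']
          linarith
      have := abs_nonneg (x i)
      nlinarith
    have hx1 : ∑ i, wgt L i * |x i| ≤ 1 := hx
    calc ∑ i, |x i| ≤ ∑ i, (1 + L⁻¹) * (wgt L i * |x i|) := Finset.sum_le_sum fun i _ => h1 i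
      _ = (1 + L⁻¹) * ∑ i, wgt L i * |x i| := by rw [Finset.mul_sum]
      _ ≤ (1 + L⁻¹) * 1 := by
          have := inv_pos.2 hL
          exact mul_le_mul_of_nonneg_left hx1 (by linarith)
      _ = 1 + L⁻¹ := mul_one _
  · intro p hp
    rw [frontier_rhombus hL] at hp
    have hp1 : N L p = 1 := hp
    have hp0 : p ≠ 0 := by
      rintro rfl
      simp [N] at hp1
    obtain ⟨i, hi⟩ : ∃ i, p i ≠ 0 := by
      by_contra h
      push Not at h
      apply hp0
      ext i
      simpa using h i
    obtain ⟨σ, hσ, hσp⟩ : ∃ σ : ℝ, (σ = 1 ∨ σ = -1) ∧ σ * p i = |p i| := by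
      rcases le_or_gt 0 (p i) with h | h
      · exact ⟨1, Or.inl rfl, by rw [abs_of_nonneg h, one_mul]⟩
      · exact ⟨-1, Or.inr rfl, by rw [abs_of_neg h]; ring⟩
    have hσ2 : σ * σ = 1 := by rcases hσ with rfl | rfl <;> norm_num
    have hσa : |σ| = 1 := by rcases hσ with rfl | rfl <;> norm_num
    have ha := wgt_pos hL i
    refine ⟨EuclideanSpace.single i σ, fun y => (1 - N L y) / wgt L i,
      ((wgt L i)⁻¹).toNNReal * ∑ i : Fin d, (wgt L i).toNNReal, |p i|, ?_, abs_pos.2 hi, ?_, ?_⟩
    · rw [EuclideanSpace.norm_single, Real.norm_eq_abs, hσa]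
    · refine LipschitzWith.of_dist_le_mul fun x y => ?_
      have h1 := (N_lip (d := d) hL).dist_le_mul x y
      rw [Real.dist_eq] at h1 ⊢
      rw [← sub_div, abs_div, abs_of_pos ha, show 1 - N L x - (1 - N L y) = -(N L x - N L y) by ring,
        abs_neg, div_eq_inv_mul, NNReal.coe_mul, Real.coe_toNNReal _ (inv_pos.2 ha).le, mul_assoc]
      exact mul_le_mul_of_nonneg_left h1 (inv_pos.2 ha).le
    · intro x hx
      have hin : inner ℝ (EuclideanSpace.single i σ) x = σ * x i := by
        rw [EuclideanSpace.inner_single_left]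
        simp
      have hxi : σ * x i = |x i| := by
        have h1 : |x i - p i| < |p i| := by
          refine lt_of_le_of_lt ?_ hx
          rw [dist_eq_norm]
          exact abs_coord_le (x - p) i
        have h2 : 0 < σ * x i := by
          have h3 : σ * x i = |p i| + σ * (x i - p i) := by rw [← hσp]; ring
          have h4 : |σ * (x i - p i)| < |p i| := by rw [abs_mul, hσa, one_mul]; exact h1
          have := (abs_lt.1 h4).1
          linarith
        rw [← abs_of_pos h2, abs_mul, hσa, one_mul]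
      have hN : N L x = wgt L i * |x i| + N L (x - (σ * x i) • EuclideanSpace.single i σ) := by
        rw [N, N, ← Finset.add_sum_erase _ _ (Finset.mem_univ i),
          ← Finset.add_sum_erase Finset.univ
            (fun j => wgt L j * |(x - (σ * x i) • EuclideanSpace.single i σ) j|) (Finset.mem_univ i)]
        have h5 : (x - (σ * x i) • EuclideanSpace.single i σ) i = 0 := by
          rw [PiLp.sub_apply, PiLp.smul_apply, EuclideanSpace.single_apply, if_pos rfl, smul_eq_mul]
          linear_combination (-x i) * hσ2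
        rw [h5, abs_zero, mul_zero, zero_add]
        congr 1
        refine Finset.sum_congr rfl fun j hj => ?_
        have hji := Finset.ne_of_mem_erase hj
        rw [PiLp.sub_apply, PiLp.smul_apply, EuclideanSpace.single_apply, if_neg hji, smul_zero,
          sub_zero]
      rw [hin, mem_rhombus, hN, le_div_iff₀ ha, hxi]
      constructor <;> intro h <;> linarith
  · refine mem_of_superset ((isOpen_lt (N_cont hL) continuous_const).mem_nhds
      (show (0 : E d) ∈ {x | N L x < 1} by simp [N])) fun x hx => ?_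
    have h1 : N L x < 1 := hx
    exact h1.le
  · intro v hv
    have hv0 := N_pos hL hv
    refine ⟨(N L v)⁻¹, ⟨(inv_pos.2 hv0).le, ?_⟩, ?_⟩
    · rw [frontier_rhombus hL]
      change N L ((N L v)⁻¹ • v) = 1
      rw [N_smul, abs_of_pos (inv_pos.2 hv0), inv_mul_cancel₀ hv0.ne']
    · rintro t ⟨ht0, ht⟩
      rw [frontier_rhombus hL] at ht
      have ht1 : N L (t • v) = 1 := ht
      rw [N_smul, abs_of_nonneg ht0] at ht1
      exact eq_inv_of_mul_eq_one_left ht1

end Q292.Eden
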