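import Mathlib
import Pool.Agent.Q292.Eden.Defs
import Pool.Agent.Q292.Eden.Rhombus
import Pool.Agent.Q292.Eden.Metric

/-!
# The rhombus is not a growth ball
-/

namespace Q292.Eden

open MeasureTheory Set Topology Filter
open scoped ENNReal NNReal

variable {d : ℕ}

theorem U_eq {μ : Seminorm ℝ (E d)} {α : ℝ} (hα : α < 1) {f : E d → ℝ} (hf : IsWeight α f) {L : ℝ}
    (hL : 0 < L) (hK : rhombus d L = growthBall μ f) {z : E d} (hz : z ≠ 0) :
    D μ f 0 z = ENNReal.ofReal (N L z ^ (1 - α)) := by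
  have hβ : 0 < 1 - α := by linarith
  have hN := N_pos hL hz
  have key : ∀ r : ℝ, 0 < r → (r * N L z ≤ 1 ↔ ENNReal.ofReal (r ^ (1 - α)) * D μ f 0 z ≤ 1) := by
    intro r hr
    rw [← D_scale hf hr]
    have h1 : r • z ∈ rhombus d L ↔ r • z ∈ growthBall μ f := by rw [hK]
    rw [mem_rhombus, N_smul, abs_of_pos hr] at h1
    exact h1
  have hMpos : 0 < N L z ^ (1 - α) := Real.rpow_pos_of_pos hN _
  have hle : D μ f 0 z ≤ ENNReal.ofReal (N L z ^ (1 - α)) := by
    have h1 := (key (N L z)⁻¹ (inv_pos.2 hN)).1 (by rw [inv_mul_cancel₀ hN.ne'])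
    calc D μ f 0 z = ENNReal.ofReal (N L z ^ (1 - α)) *
          (ENNReal.ofReal ((N L z)⁻¹ ^ (1 - α)) * D μ f 0 z) := by
          rw [← mul_assoc, ← ENNReal.ofReal_mul hMpos.le, ← Real.mul_rpow hN.le (inv_pos.2 hN).le,
            mul_inv_cancel₀ hN.ne', Real.one_rpow, ENNReal.ofReal_one, one_mul]
      _ ≤ ENNReal.ofReal (N L z ^ (1 - α)) * 1 := by gcongr
      _ = _ := mul_one _
  refine le_antisymm hle ?_
  by_contra hlt
  push Not at hlt
  have hfin : D μ f 0 z ≠ ∞ := (hle.trans_lt ENNReal.ofReal_lt_top).ne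
  set u := (D μ f 0 z).toReal with hu
  have hue : D μ f 0 z = ENNReal.ofReal u := (ENNReal.ofReal_toReal hfin).symm
  have hu0 : 0 ≤ u := ENNReal.toReal_nonneg
  have huM : u < N L z ^ (1 - α) := by
    rw [hue] at hlt
    exact (ENNReal.ofReal_lt_ofReal_iff hMpos).1 hlt
  set q := (u + N L z ^ (1 - α)) / 2 with hq
  have hq0 : 0 < q := by rw [hq]; linarith
  have hr0 : 0 < q ^ (-(1 - α)⁻¹) := Real.rpow_pos_of_pos hq0 _
  have hrβ : (q ^ (-(1 - α)⁻¹)) ^ (1 - α) = q⁻¹ := by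
    rw [← Real.rpow_mul hq0.le, neg_mul, inv_mul_cancel₀ hβ.ne', Real.rpow_neg_one]
  have h1 := (key _ hr0).2 (by
    rw [hrβ, hue, ← ENNReal.ofReal_mul (inv_pos.2 hq0).le, ENNReal.ofReal_le_one,
      inv_mul_le_iff₀ hq0]
    rw [hq]
    linarith)
  have h2 : (q ^ (-(1 - α)⁻¹) * N L z) ^ (1 - α) ≤ 1 :=
    Real.rpow_le_one (mul_pos hr0 hN).le h1 hβ.le
  rw [Real.mul_rpow hr0.le hN.le, hrβ, inv_mul_le_iff₀ hq0] at h2
  rw [hq] at h2
  linarith

theorem IsPath.continuousOn {μ : Seminorm ℝ (E d)} (hμ : ∀ x, μ x = 0 → x = 0) {γ : ℝ → E d}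
    {T : ℝ} {z w : E d} (h : IsPath μ γ T z w) : ContinuousOn γ (Icc 0 T) := by
  obtain ⟨m, hm, hle⟩ := mu_lower μ hμ
  refine LipschitzOnWith.continuousOn (K := (m⁻¹).toNNReal) (LipschitzOnWith.of_dist_le_mul ?_)
  have key : ∀ s ∈ Icc (0 : ℝ) T, ∀ t ∈ Icc (0 : ℝ) T, s ≤ t → dist (γ s) (γ t) ≤ m⁻¹ * (t - s) := by
    intro s hs t ht hst
    have h1 := h.lip s t hs.1 hst ht.2
    have h2 := hle (γ t - γ s)
    rw [dist_comm, dist_eq_norm, ← div_eq_inv_mul, le_div_iff₀ hm, mul_comm]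
    linarith
  intro s hs t ht
  rw [Real.coe_toNNReal _ (inv_pos.2 hm).le, Real.dist_eq]
  rcases le_total s t with h1 | h1
  · rw [abs_sub_comm, abs_of_nonneg (by linarith)]
    exact key s hs t ht h1
  · rw [abs_of_nonneg (by linarith), dist_comm]
    exact key t ht s hs h1

/-- Every path to `w0` has a last exit from the ball of radius `ρ` around `w0`. -/
theorem path_lower {μ : Seminorm ℝ (E d)} (hμ : ∀ x, μ x = 0 → x = 0) {f : E d → ℝ} {γ : ℝ → E d}
    {T : ℝ} {z w0 : E d} (h : IsPath μ γ T z w0) {ρ : ℝ} (hρ : 0 < ρ) (hρz : ρ ≤ ‖z - w0‖) {c : ℝ}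
    (hc0 : 0 ≤ c) (hc : ∀ x, ‖x - w0‖ ≤ ρ → c ≤ 1 / f x) :
    ∃ w, ‖w - w0‖ = ρ ∧ D μ f z w + ENNReal.ofReal (c * μ (w - w0)) ≤
      ∫⁻ t in Icc 0 T, ENNReal.ofReal (1 / f (γ t)) := by
  have hcont := h.continuousOn hμ
  have hg : ContinuousOn (fun t => ‖γ t - w0‖) (Icc 0 T) :=
    (hcont.sub continuousOn_const).norm
  have hA : IsCompact (Icc 0 T ∩ (fun t => ‖γ t - w0‖) ⁻¹' Ici ρ) := by
    refine isCompact_Icc.of_isClosed_subset ?_ inter_subset_left
    exact hg.preimage_isClosed_of_isClosed isClosed_Icc isClosed_Ici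
  have hAne : (Icc 0 T ∩ (fun t => ‖γ t - w0‖) ⁻¹' Ici ρ).Nonempty :=
    ⟨0, ⟨le_rfl, h.nonneg⟩, by simpa [h.start] using hρz⟩
  obtain ⟨t, ⟨htI, htρ⟩, hmax⟩ := hA.exists_isGreatest hAne
  have htρ' : ρ ≤ ‖γ t - w0‖ := htρ
  have heq : ‖γ t - w0‖ = ρ := by
    refine le_antisymm ?_ htρ'
    by_contra hgt
    push Not at hgt
    have hivt := intermediate_value_Icc' htI.2 (hg.mono (Icc_subset_Icc_left htI.1))
    have hmem : ρ ∈ Icc ‖γ T - w0‖ ‖γ t - w0‖ := ⟨by rw [h.finish]; simpa using hρ.le, hgt.le⟩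
    obtain ⟨s, hs, hsρ⟩ := hivt hmem
    have h1 := hmax ⟨⟨htI.1.trans hs.1, hs.2⟩, by
      change ρ ≤ ‖γ s - w0‖
      exact hsρ.ge⟩
    have h2 : s = t := le_antisymm h1 hs.1
    rw [h2] at hsρ
    have hsρ' : ‖γ t - w0‖ = ρ := hsρ
    linarith
  refine ⟨γ t, heq, ?_⟩
  have hsplit : Icc 0 T = Icc 0 t ∪ Ioc t T := (Icc_union_Ioc_eq_Icc htI.1 htI.2).symm
  have hdisj : Disjoint (Icc 0 t) (Ioc t T) := by
    rw [Set.disjoint_left]
    rintro x hx1 hx2
    exact absurd hx1.2 (not_le.2 hx2.1)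
  rw [hsplit, lintegral_union measurableSet_Ioc hdisj]
  refine add_le_add (D_le (h.restrict htI.1 htI.2)) ?_
  calc ENNReal.ofReal (c * μ (γ t - w0)) ≤ ENNReal.ofReal (c * (T - t)) := by
        refine ENNReal.ofReal_le_ofReal (mul_le_mul_of_nonneg_left ?_ hc0)
        rw [map_sub_rev, ← h.finish]
        exact h.lip t T htI.1 htI.2 le_rfl
    _ = ∫⁻ _ in Ioc t T, ENNReal.ofReal c := by
        rw [setLIntegral_const, Real.volume_Ioc, ← ENNReal.ofReal_mul hc0]
    _ ≤ _ := by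
        refine setLIntegral_mono' measurableSet_Ioc fun s hs => ENNReal.ofReal_le_ofReal (hc _ ?_)
        by_contra hcon
        push Not at hcon
        have := hmax ⟨⟨htI.1.trans hs.1.le, hs.2⟩, hcon.le⟩
        exact absurd hs.1 (not_lt.2 this)

theorem rpow_near (β : ℝ) {ε : ℝ} (hε : 0 < ε) :
    ∃ δ : ℝ, 0 < δ ∧ ∀ y : ℝ, |y| < δ → |(1 + y) ^ β - 1 - β * y| ≤ ε * |y| := by
  have h1 : HasDerivAt (fun x : ℝ => x ^ β) β 1 := by
    have := Real.hasDerivAt_rpow_const (x := 1) (p := β) (Or.inl one_ne_zero)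
    simpa using this
  rw [hasDerivAt_iff_isLittleO] at h1
  have h2 := h1.def hε
  obtain ⟨δ, hδ, h3⟩ := Metric.eventually_nhds_iff.1 h2
  refine ⟨δ, hδ, fun y hy => ?_⟩
  have h4 := h3 (y := 1 + y) (by rw [Real.dist_eq]; simpa using hy)
  simpa [mul_comm] using h4

theorem weight_cont {α : ℝ} {f : E d → ℝ} (hf : IsWeight α f) {z : E d} (hz : z ≠ 0) :
    ContinuousAt f z ∧ 0 < f z := by
  obtain ⟨f0, hpos, ⟨C, hC⟩, hf⟩ := hf
  have hzn : 0 < ‖z‖ := norm_pos_iff.2 hz
  have hmaps : MapsTo (fun z : E d => ‖z‖⁻¹ • z) {z | z ≠ 0} (Metric.sphere (0 : E d) 1) := by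
    intro x hx
    rw [mem_sphere_zero_iff_norm, norm_smul, norm_inv, norm_norm,
      inv_mul_cancel₀ (norm_pos_iff.2 hx).ne']
  have h1 : ContinuousOn (fun z : E d => ‖z‖⁻¹ • z) {z | z ≠ 0} :=
    (continuous_norm.continuousOn.inv₀ fun x hx => (norm_pos_iff.2 hx).ne').smul continuousOn_id
  have h2 : ContinuousOn (fun z : E d => f0 (‖z‖⁻¹ • z)) {z | z ≠ 0} :=
    hC.continuousOn.comp h1 hmaps
  have h3 : ContinuousOn (fun z : E d => ‖z‖ ^ α) {z | z ≠ 0} :=
    continuous_norm.continuousOn.rpow_const fun x hx => Or.inl (norm_pos_iff.2 hx).ne'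
  have h4 : ContinuousOn f {z | z ≠ 0} := by
    have : f = fun z => ‖z‖ ^ α * f0 (‖z‖⁻¹ • z) := funext hf
    rw [this]
    exact h3.mul h2
  refine ⟨h4.continuousAt (isOpen_ne.mem_nhds hz), ?_⟩
  rw [hf]
  exact mul_pos (Real.rpow_pos_of_pos hzn _) (hpos _ (hmaps hz))

/-- the first order increment of the gauge at `e₁` -/
noncomputable def psi (L : ℝ) (i0 : Fin d) (w : E d) : ℝ := w i0 + (N L w - |w i0|)

theorem N_e1_add {L : ℝ} {i0 : Fin d} (hi0 : (i0 : ℕ) = 0) {w : E d} (hw : |w i0| ≤ 1) :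
    N L (EuclideanSpace.single i0 (1 : ℝ) + w) = 1 + psi L i0 w := by
  have h1 : wgt L i0 = 1 := by simp [wgt, hi0]
  have hother : ∀ j ∈ Finset.univ.erase i0,
      wgt L j * |(EuclideanSpace.single i0 (1 : ℝ) + w) j| = wgt L j * |w j| := by
    intro j hj
    have hji := Finset.ne_of_mem_erase hj
    rw [PiLp.add_apply, PiLp.single_apply, if_neg hji, zero_add]
  rw [psi, N, N, ← Finset.add_sum_erase _ _ (Finset.mem_univ i0), Finset.sum_congr rfl hother,
    ← Finset.add_sum_erase Finset.univ (fun j => wgt L j * |w j|) (Finset.mem_univ i0), h1,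
    PiLp.add_apply, PiLp.single_apply, if_pos rfl]
  have := abs_le.1 hw
  rw [abs_of_nonneg (show 0 ≤ 1 + w i0 by linarith)]
  ring

theorem N_e1 {L : ℝ} {i0 : Fin d} (hi0 : (i0 : ℕ) = 0) :
    N L (EuclideanSpace.single i0 (1 : ℝ)) = 1 := by
  have := N_e1_add (L := L) (i0 := i0) hi0 (w := 0) (by simp)
  simpa [psi, N] using this

theorem psi_smul {L : ℝ} {i0 : Fin d} {t : ℝ} (ht : 0 ≤ t) (w : E d) :
    psi L i0 (t • w) = t * psi L i0 w := by
  rw [psi, psi, N_smul, PiLp.smul_apply, smul_eq_mul, abs_mul, abs_of_nonneg ht]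
  ring

theorem stepA {μ : Seminorm ℝ (E d)} (hμ : ∀ x, μ x = 0 → x = 0) {α : ℝ} (hα : α < 1)
    {f : E d → ℝ} (hf : IsWeight α f) {L : ℝ}
    (hL : 0 < L) (hK : rhombus d L = growthBall μ f) {i0 : Fin d} (hi0 : (i0 : ℕ) = 0) (v : E d) :
    (1 - α) * psi L i0 v ≤ μ v * (1 / f (EuclideanSpace.single i0 (1 : ℝ))) := by
  set e1 : E d := EuclideanSpace.single i0 (1 : ℝ) with he1
  have he1n : ‖e1‖ = 1 := by simp [he1]
  have he10 : e1 ≠ 0 := by
    intro h
    rw [h, norm_zero] at he1n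
    exact zero_ne_one he1n
  obtain ⟨hcont, hfpos⟩ := weight_cont hf he10
  have hG0 : 0 < 1 / f e1 := by positivity
  have hcont' : ContinuousAt (fun z => 1 / f z) e1 := continuousAt_const.div hcont hfpos.ne'
  -- it suffices to prove the inequality up to `ε`
  have key : ∀ ε : ℝ, 0 < ε →
      (1 - α) * psi L i0 v - ε * |psi L i0 v| ≤ μ v * (1 / f e1 + ε) := by
    intro ε hε
    obtain ⟨δ1, hδ1, hr⟩ := rpow_near (1 - α) hε
    obtain ⟨δ2, hδ2, hc⟩ := Metric.eventually_nhds_iff.1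
      (hcont'.eventually (eventually_lt_nhds (show 1 / f e1 < 1 / f e1 + ε by linarith)))
    obtain ⟨t, ht0, ht1, ht2, ht3⟩ : ∃ t : ℝ, 0 < t ∧ t * |psi L i0 v| < δ1 ∧ t * ‖v‖ < δ2 ∧
        t * ‖v‖ < 1 := by
      refine ⟨min (δ1 / (|psi L i0 v| + 1)) (min (δ2 / (‖v‖ + 1)) (1 / (‖v‖ + 1))), ?_, ?_, ?_, ?_⟩
      · positivity
      · calc _ ≤ δ1 / (|psi L i0 v| + 1) * |psi L i0 v| :=
              mul_le_mul_of_nonneg_right (min_le_left _ _) (abs_nonneg _)
          _ < δ1 := by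
              rw [div_mul_eq_mul_div, div_lt_iff₀ (by positivity)]
              nlinarith [abs_nonneg (psi L i0 v)]
      · calc _ ≤ δ2 / (‖v‖ + 1) * ‖v‖ :=
              mul_le_mul_of_nonneg_right ((min_le_right _ _).trans (min_le_left _ _)) (norm_nonneg _)
          _ < δ2 := by
              rw [div_mul_eq_mul_div, div_lt_iff₀ (by positivity)]
              nlinarith [norm_nonneg v]
      · calc _ ≤ 1 / (‖v‖ + 1) * ‖v‖ :=
              mul_le_mul_of_nonneg_right ((min_le_right _ _).trans (min_le_right _ _)) (norm_nonneg _)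
          _ < 1 := by
              rw [div_mul_eq_mul_div, div_lt_iff₀ (by positivity)]
              nlinarith [norm_nonneg v]
    have hne : e1 + t • v ≠ 0 := by
      intro h
      have h1 : ‖e1‖ = ‖t • v‖ := by
        rw [eq_neg_of_add_eq_zero_left h, norm_neg]
      rw [he1n, norm_smul, Real.norm_of_nonneg ht0.le] at h1
      linarith
    have hU := U_eq hα hf hL hK hne
    have hU1 := U_eq hα hf hL hK he10
    rw [N_e1 hi0, Real.one_rpow] at hU1
    have hcoord : |(t • v) i0| ≤ 1 := by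
      refine (abs_coord_le _ _).trans ?_
      rw [norm_smul, Real.norm_of_nonneg ht0.le]
      exact ht3.le
    rw [N_e1_add hi0 hcoord, psi_smul ht0.le] at hU
    have hseg := D_segment μ hμ f e1 (e1 + t • v) (C := 1 / f e1 + ε) (by linarith) (by
      intro s hs
      refine (hc ?_).le
      rw [dist_eq_norm, add_sub_cancel_left, add_sub_cancel_left, norm_smul, norm_smul,
        Real.norm_of_nonneg hs.1, Real.norm_of_nonneg ht0.le]
      calc s * (t * ‖v‖) ≤ 1 * (t * ‖v‖) := mul_le_mul_of_nonneg_right hs.2 (by positivity)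
        _ < δ2 := by rw [one_mul]; exact ht2)
    have htri := D_triangle μ f 0 e1 (e1 + t • v)
    rw [hU, hU1] at htri
    have h5 : ENNReal.ofReal ((1 + t * psi L i0 v) ^ (1 - α)) ≤
        ENNReal.ofReal (1 + (1 / f e1 + ε) * (t * μ v)) := by
      rw [ENNReal.ofReal_add zero_le_one (by positivity)]
      refine htri.trans (add_le_add le_rfl ?_)
      rw [add_sub_cancel_left, map_smul_eq_mul, Real.norm_of_nonneg ht0.le] at hseg
      exact hseg
    have h6 := (ENNReal.ofReal_le_ofReal_iff (by positivity)).1 h5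
    have h7 := hr (t * psi L i0 v) (by rw [abs_mul, abs_of_pos ht0]; exact ht1)
    rw [abs_mul, abs_of_pos ht0] at h7
    have h8 := (abs_le.1 h7).1
    have h9 : t * ((1 - α) * psi L i0 v - ε * |psi L i0 v|) ≤ t * (μ v * (1 / f e1 + ε)) := by
      nlinarith
    exact le_of_mul_le_mul_left h9 ht0
  refine le_of_forall_pos_le_add fun ε hε => ?_
  have hden : 0 < |psi L i0 v| + μ v + 1 := by
    have := abs_nonneg (psi L i0 v)
    have := apply_nonneg μ v
    linarith
  have h1 := key (ε / (|psi L i0 v| + μ v + 1)) (by positivity)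
  have h2 : ε / (|psi L i0 v| + μ v + 1) * (|psi L i0 v| + μ v) ≤ ε := by
    rw [div_mul_eq_mul_div, div_le_iff₀ hden]
    nlinarith
  nlinarith

theorem not_growthBall {μ : Seminorm ℝ (E d)} (hμ : ∀ x, μ x = 0 → x = 0) {α : ℝ} (hα : α < 1)
    {f : E d → ℝ} (hf : IsWeight α f) {L : ℝ} (hL : 0 < L) {i0 i1 : Fin d} (hi0 : (i0 : ℕ) = 0)
    (hi1 : (i1 : ℕ) ≠ 0)
    (hμL : μ (EuclideanSpace.single i1 1) < L * μ (EuclideanSpace.single i0 1)) :
    rhombus d L ≠ growthBall μ f := by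
  intro hK
  set e1 : E d := EuclideanSpace.single i0 (1 : ℝ) with he1
  set e2 : E d := EuclideanSpace.single i1 (1 : ℝ) with he2
  have he1n : ‖e1‖ = 1 := by simp [he1]
  have he10 : e1 ≠ 0 := by
    intro h
    rw [h, norm_zero] at he1n
    exact zero_ne_one he1n
  obtain ⟨hcont, hfpos⟩ := weight_cont hf he10
  set G0 := 1 / f e1 with hG0d
  have hG0 : 0 < G0 := by positivity
  have hβ : 0 < 1 - α := by linarith
  have hA : ∀ v : E d, (1 - α) * psi L i0 v ≤ μ v * G0 := stepA hμ hα hf hL hK hi0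
  have hi01 : i1 ≠ i0 := by
    rintro rfl
    exact hi1 hi0
  -- the inequality in direction `e₂`
  have hG : 1 - α < μ e1 * G0 := by
    have h1 := hA e2
    have h2 : psi L i0 e2 = L := by
      have h3 : N L e2 = L := by
        rw [N, Finset.sum_eq_single i1]
        · simp [he2, wgt, hi1]
        · intro j _ hj
          rw [he2, PiLp.single_apply, if_neg hj]
          simp
        · intro h
          exact absurd (Finset.mem_univ _) h
      rw [psi, h3, he2, PiLp.single_apply, if_neg hi01.symm]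
      simp
    rw [h2] at h1
    have h3 : (1 - α) * L < L * μ e1 * G0 := lt_of_le_of_lt h1 (mul_lt_mul_of_pos_right hμL hG0)
    have h4 : L * (1 - α) < L * (μ e1 * G0) := by linarith
    exact lt_of_mul_lt_mul_left h4 hL.le
  -- positivity of the first order form
  have hother : ∀ v : E d, 0 ≤ N L v - |v i0| ∧ (N L v - |v i0| = 0 → v = v i0 • e1) := by
    intro v
    have h1 : wgt L i0 = 1 := by simp [wgt, hi0]
    have h2 : N L v - |v i0| = ∑ j ∈ Finset.univ.erase i0, wgt L j * |v j| := by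
      rw [N, ← Finset.add_sum_erase _ _ (Finset.mem_univ i0), h1]
      ring
    have h3 : ∀ j ∈ Finset.univ.erase i0, 0 ≤ wgt L j * |v j| := fun j _ =>
      mul_nonneg (wgt_pos hL j).le (abs_nonneg _)
    refine ⟨by rw [h2]; exact Finset.sum_nonneg h3, fun h0 => ?_⟩
    rw [h2, Finset.sum_eq_zero_iff_of_nonneg h3] at h0
    ext j
    rw [PiLp.smul_apply, he1, PiLp.single_apply]
    split_ifs with hj
    · rw [hj]; simp
    · have h4 := h0 j (Finset.mem_erase.2 ⟨hj, Finset.mem_univ _⟩)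
      have h5 := (mul_eq_zero.1 h4).resolve_left (wgt_pos hL j).ne'
      simpa using h5
  have hφ : ∀ v : E d, v ≠ 0 → 0 < (1 - α) * psi L i0 v + μ v * G0 := by
    intro v hv
    have h1 := hA (-v)
    have h2 : psi L i0 (-v) = - v i0 + (N L v - |v i0|) := by
      have h3 : N L (-v) = N L v := by
        have := N_smul L (-1) v
        rw [neg_one_smul] at this
        rw [this]; simp
      rw [psi, h3, PiLp.neg_apply, abs_neg]
    rw [h2, map_neg_eq_map] at h1
    obtain ⟨h4, h5⟩ := hother v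
    rcases h4.eq_or_lt with h6 | h6
    · have hv1 := h5 h6.symm
      have hvi : v i0 ≠ 0 := by
        intro h7
        apply hv
        rw [hv1, h7, zero_smul]
      have hμv : μ v = |v i0| * μ e1 := by
        conv_lhs => rw [hv1]
        rw [map_smul_eq_mul, Real.norm_eq_abs]
      rw [psi, ← h6, add_zero, hμv]
      rcases lt_or_gt_of_ne hvi with h8 | h8
      · rw [abs_of_neg h8]
        nlinarith
      · rw [abs_of_pos h8]
        have : 0 < μ e1 * G0 := lt_trans hβ hG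
        nlinarith [mul_pos hβ h8, mul_pos h8 this]
    · rw [psi]
      nlinarith [mul_pos hβ h6]
  -- compactness
  have hcontφ : Continuous fun v : E d => (1 - α) * psi L i0 v + μ v * G0 := by
    have h1 : Continuous fun v : E d => v i0 := by fun_prop
    have h2 : Continuous (psi L i0) := by
      unfold psi
      exact h1.add ((N_cont hL).sub h1.abs)
    exact (continuous_const.mul h2).add ((mu_cont μ).mul continuous_const)
  obtain ⟨κ, hκ, hκle⟩ : ∃ κ : ℝ, 0 < κ ∧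
      ∀ v : E d, κ * ‖v‖ ≤ (1 - α) * psi L i0 v + μ v * G0 := by
    obtain ⟨x0, hx0, hmin⟩ := (isCompact_sphere (0 : E d) 1).exists_isMinOn
      ⟨e1, by simpa using he1n⟩ hcontφ.continuousOn
    have hx0n : ‖x0‖ = 1 := by simpa using hx0
    refine ⟨(1 - α) * psi L i0 x0 + μ x0 * G0, hφ x0 (by
      rintro rfl
      rw [norm_zero] at hx0n
      exact zero_ne_one hx0n), fun v => ?_⟩
    by_cases hv : v = 0
    · subst hv
      simp [psi, N]
    · have hvn : 0 < ‖v‖ := norm_pos_iff.2 hv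
      have h1 : (1 - α) * psi L i0 x0 + μ x0 * G0 ≤
          (1 - α) * psi L i0 (‖v‖⁻¹ • v) + μ (‖v‖⁻¹ • v) * G0 := hmin (by
        rw [mem_sphere_zero_iff_norm, norm_smul, norm_inv, norm_norm, inv_mul_cancel₀ hvn.ne'])
      rw [psi_smul (inv_pos.2 hvn).le, map_smul_eq_mul, norm_inv, norm_norm] at h1
      have h2 := mul_le_mul_of_nonneg_right h1 hvn.le
      calc _ ≤ _ := h2
        _ = (‖v‖⁻¹ * ‖v‖) * ((1 - α) * psi L i0 v + μ v * G0) := by ring
        _ = _ := by rw [inv_mul_cancel₀ hvn.ne', one_mul]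
  -- constants
  have hψle : ∀ v : E d, |psi L i0 v| ≤ (2 + ∑ i : Fin d, wgt L i) * ‖v‖ := by
    intro v
    have h1 := abs_coord_le v i0
    have h2 := N_le hL v
    have h3 := (hother v).1
    rw [psi]
    calc |v i0 + (N L v - |v i0|)| ≤ |v i0| + |(N L v - |v i0|)| := abs_add_le _ _
      _ = |v i0| + (N L v - |v i0|) := by rw [abs_of_nonneg h3]
      _ ≤ (2 + ∑ i : Fin d, wgt L i) * ‖v‖ := by
          nlinarith [norm_nonneg v, abs_nonneg (v i0)]
  set Cψ := 2 + ∑ i : Fin d, wgt L i with hCψ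
  have hCψ0 : 0 < Cψ := by
    have : 0 ≤ ∑ i : Fin d, wgt L i := Finset.sum_nonneg fun i _ => (wgt_pos hL i).le
    linarith
  have hcμ := cmu_nonneg μ
  set ε := min (κ / (4 * Cψ)) (min (κ / (4 * (cmu μ + 1))) (G0 / 2)) with hεd
  have hε : 0 < ε := by positivity
  have hε1 : ε * Cψ ≤ κ / 4 := by
    calc ε * Cψ ≤ κ / (4 * Cψ) * Cψ := mul_le_mul_of_nonneg_right (min_le_left _ _) hCψ0.le
      _ = κ / 4 := by field_simp
  have hε2 : ε * cmu μ ≤ κ / 4 := by
    calc ε * cmu μ ≤ κ / (4 * (cmu μ + 1)) * (cmu μ + 1) := by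
          refine mul_le_mul ((min_le_right _ _).trans (min_le_left _ _)) (by linarith) hcμ
            (by positivity)
      _ = κ / 4 := by field_simp
  have hε3 : ε ≤ G0 / 2 := (min_le_right _ _).trans (min_le_right _ _)
  obtain ⟨δ1, hδ1, hr⟩ := rpow_near (1 - α) hε
  have hcont' : ContinuousAt (fun z => 1 / f z) e1 := continuousAt_const.div hcont hfpos.ne'
  obtain ⟨δ2, hδ2, hc⟩ := Metric.eventually_nhds_iff.1
    (hcont'.eventually (eventually_gt_nhds (show G0 - ε < 1 / f e1 by linarith)))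
  set ρ := min (1 / 2) (min (δ2 / 2) (δ1 / (2 * Cψ))) with hρd
  have hρ : 0 < ρ := by positivity
  have hρ1 : ρ ≤ 1 / 2 := min_le_left _ _
  have hρ2 : ρ < δ2 := lt_of_le_of_lt ((min_le_right _ _).trans (min_le_left _ _)) (by linarith)
  have hρ3 : Cψ * ρ < δ1 := by
    calc Cψ * ρ ≤ Cψ * (δ1 / (2 * Cψ)) :=
          mul_le_mul_of_nonneg_left ((min_le_right _ _).trans (min_le_right _ _)) hCψ0.le
      _ = δ1 / 2 := by field_simp
      _ < δ1 := by linarith
  have hU1 := U_eq hα hf hL hK he10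
  rw [N_e1 hi0, Real.one_rpow, ENNReal.ofReal_one] at hU1
  have hlow : ENNReal.ofReal (1 + κ / 4 * ρ) ≤ D μ f 0 e1 := by
    refine le_iInf fun γ => le_iInf fun T => le_iInf fun hp => ?_
    obtain ⟨w, hw, hle⟩ := path_lower hμ hp hρ (by rw [zero_sub, norm_neg, he1n]; linarith)
      (c := G0 - ε) (by linarith) (fun x hx => (hc (by rw [dist_eq_norm]; linarith)).le)
    refine le_trans ?_ hle
    have hwne : w ≠ 0 := by
      rintro rfl
      rw [zero_sub, norm_neg, he1n] at hw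
      linarith
    have hwe : w = e1 + (w - e1) := by abel
    have hU := U_eq hα hf hL hK hwne
    have hcoord : |(w - e1) i0| ≤ 1 := (abs_coord_le _ _).trans (by rw [hw]; linarith)
    rw [hwe, N_e1_add hi0 hcoord, ← hwe] at hU
    rw [hU]
    set x := w - e1 with hx
    have hψx := hψle x
    rw [hw] at hψx
    have h7 := hr (psi L i0 x) (lt_of_le_of_lt hψx hρ3)
    have h8 := (abs_le.1 h7).1
    have h9 := hκle x
    rw [hw] at h9
    have h10 := mu_le μ x
    rw [hw] at h10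
    change μ x ≤ cmu μ * ρ at h10
    have hμx := apply_nonneg μ x
    have hbase : 0 ≤ (1 + psi L i0 x) ^ (1 - α) := by
      refine Real.rpow_nonneg ?_ _
      rw [← N_e1_add hi0 hcoord]
      exact N_nonneg hL _
    rw [← ENNReal.ofReal_add hbase (mul_nonneg (by linarith) hμx)]
    refine ENNReal.ofReal_le_ofReal ?_
    have h11 : ε * |psi L i0 x| ≤ κ / 4 * ρ := by
      calc ε * |psi L i0 x| ≤ ε * (Cψ * ρ) := mul_le_mul_of_nonneg_left hψx hε.le
        _ = (ε * Cψ) * ρ := by ring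
        _ ≤ κ / 4 * ρ := mul_le_mul_of_nonneg_right hε1 hρ.le
    have h12 : ε * μ x ≤ κ / 4 * ρ := by
      calc ε * μ x ≤ ε * (cmu μ * ρ) := mul_le_mul_of_nonneg_left h10 hε.le
        _ = (ε * cmu μ) * ρ := by ring
        _ ≤ κ / 4 * ρ := mul_le_mul_of_nonneg_right hε2 hρ.le
    nlinarith
  rw [hU1] at hlow
  have h13 : (1 : ℝ) < 1 + κ / 4 * ρ := by
    have : 0 < κ / 4 * ρ := by positivity
    linarith
  exact absurd hlow (not_le.2 (ENNReal.one_lt_ofReal.2 h13))

end Q292.Eden
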